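import Mathlib
import Pool.Agent.Lib.MP_bad31e_co.Bridge

/-!
# Transit pairs admitting (s,t)-triples in quartics

Every quartic has exactly four transits, and they can be split into two pairs such that the
quartic has an (s,t)-triple whenever `s` and `t` lie in different pairs.  In particular every
quartic has an (s,t)-triple for at least one pair of distinct transits `s`, `t`.
-/

namespace Pool.Agent.Results.MP_bad31e_co.TransitPairs

/-- A 2T-graph: the edge set is the union of two edge-disjoint spanning trees. -/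
def Is2TGraph {V : Type*} (G : SimpleGraph V) : Prop :=
  ∃ T₁ T₂ : SimpleGraph V, T₁.IsTree ∧ T₂.IsTree ∧ Disjoint T₁.edgeSet T₂.edgeSet ∧
    G.edgeSet = T₁.edgeSet ∪ T₂.edgeSet

/-- A transit: a vertex of degree 3. -/
def IsTransit {V : Type*} (G : SimpleGraph V) (v : V) : Prop :=
  (G.neighborSet v).ncard = 3

/-- A quartic: a simple 2T-graph in which every vertex has degree 3 or 4. -/
def IsQuartic {V : Type*} (G : SimpleGraph V) : Prop :=
  Is2TGraph G ∧ ∀ v, (G.neighborSet v).ncard = 3 ∨ (G.neighborSet v).ncard = 4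

/-- `G` has an (s,t)-triple: a total order on the vertices and edge-disjoint spanning trees
`I`, `O` of `G` such that in `I` each vertex other than `t` is adjacent to a larger vertex and
in `O` each vertex other than `s` is adjacent to a smaller vertex. -/
def HasTriple {V : Type*} (G : SimpleGraph V) (s t : V) : Prop :=
  ∃ (L : LinearOrder V) (I O : SimpleGraph V), I.IsTree ∧ O.IsTree ∧ I ≤ G ∧ O ≤ G ∧
    Disjoint I.edgeSet O.edgeSet ∧
    (∀ v, v ≠ t → ∃ w, I.Adj v w ∧ L.lt v w) ∧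
    (∀ v, v ≠ s → ∃ w, O.Adj v w ∧ L.lt w v)

open Pool.Agent.Lib.MP_bad31e_co in
theorem hasTriple_of_feas {V : Type*} [Fintype V] {G : SimpleGraph V} {s t : V}
    (h : Feas (Finset.univ : Finset V) (edgeFin G) (fun e => e) s t) : HasTriple G s t := by
  obtain ⟨_, _, rk, up, dn, h⟩ := h
  have hinj : Function.Injective rk := fun a b hab =>
    h.inj a (Finset.mem_univ _) b (Finset.mem_univ _) hab
  have hup : ∀ v, v ≠ t → ∃ w, up v = s(v, w) ∧ rk v < rk w := by
    intro v hv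
    obtain ⟨_, w, _, h2, h3⟩ := h.hup v (Finset.mem_univ _) hv
    exact ⟨w, h2, h3⟩
  have hdn : ∀ v, v ≠ s → ∃ w, dn v = s(v, w) ∧ rk w < rk v := by
    intro v hv
    obtain ⟨_, w, _, h2, h3⟩ := h.hdn v (Finset.mem_univ _) hv
    exact ⟨w, h2, h3⟩
  have hupG : ∀ v, v ≠ t → up v ∈ G.edgeSet := by
    intro v hv
    exact mem_edgeFin.mp (h.hup v (Finset.mem_univ _) hv).1
  have hdnG : ∀ v, v ≠ s → dn v ∈ G.edgeSet := by
    intro v hv
    exact mem_edgeFin.mp (h.hdn v (Finset.mem_univ _) hv).1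
  refine ⟨LinearOrder.lift' rk hinj, SimpleGraph.fromEdgeSet {e | ∃ v, v ≠ t ∧ up v = e},
    SimpleGraph.fromEdgeSet {e | ∃ v, v ≠ s ∧ dn v = e}, tree_of_up rk t up hup, ?_, ?_, ?_, ?_,
    ?_, ?_⟩
  · refine tree_of_up (fun v => - rk v) s dn ?_
    intro v hv
    obtain ⟨w, h1, h2⟩ := hdn v hv
    exact ⟨w, h1, by simpa using h2⟩
  · intro a b hab
    rw [SimpleGraph.fromEdgeSet_adj] at hab
    obtain ⟨⟨v, hv, h1⟩, _⟩ := hab
    have := hupG v hv
    rw [h1] at this
    exact this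
  · intro a b hab
    rw [SimpleGraph.fromEdgeSet_adj] at hab
    obtain ⟨⟨v, hv, h1⟩, _⟩ := hab
    have := hdnG v hv
    rw [h1] at this
    exact this
  · rw [Set.disjoint_left]
    intro e he he'
    rw [SimpleGraph.edgeSet_fromEdgeSet] at he he'
    obtain ⟨⟨v, hv, h1⟩, _⟩ := he
    obtain ⟨⟨w, hw, h2⟩, _⟩ := he'
    exact h.hne v (Finset.mem_univ _) hv w (Finset.mem_univ _) hw (h1.trans h2.symm)
  · intro v hv
    obtain ⟨w, h1, h2⟩ := hup v hv
    refine ⟨w, ?_, h2⟩
    rw [SimpleGraph.fromEdgeSet_adj]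
    exact ⟨⟨v, hv, h1⟩, by rintro rfl; omega⟩
  · intro v hv
    obtain ⟨w, h1, h2⟩ := hdn v hv
    refine ⟨w, ?_, h2⟩
    rw [SimpleGraph.fromEdgeSet_adj]
    exact ⟨⟨v, hv, h1⟩, by rintro rfl; omega⟩

open Pool.Agent.Lib.MP_bad31e_co in
/-- Sanity check: the complete graph on four vertices is a quartic. -/
theorem isQuartic_K4 : IsQuartic (⊤ : SimpleGraph (Fin 4)) := by
  constructor
  · refine ⟨SimpleGraph.fromEdgeSet {e | ∃ v : Fin 4, v ≠ 3 ∧ s(v, v + 1) = e},
      SimpleGraph.fromEdgeSet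
        {e | ∃ v : Fin 4, v ≠ 1 ∧ s(v, (![3, 0, 0, 1] : Fin 4 → Fin 4) v) = e},
      tree_of_up (fun v => (v.val : ℤ)) 3 (fun v => s(v, v + 1)) ?_,
      tree_of_up (![1, 3, 0, 2] : Fin 4 → ℤ) 1
        (fun v => s(v, (![3, 0, 0, 1] : Fin 4 → Fin 4) v)) ?_,
      ?_, ?_⟩
    · intro v hv
      refine ⟨v + 1, rfl, ?_⟩
      fin_cases v <;> simp_all
    · intro v hv
      refine ⟨(![3, 0, 0, 1] : Fin 4 → Fin 4) v, rfl, ?_⟩
      fin_cases v <;> simp_all
    · rw [Set.disjoint_left]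
      intro e he he'
      rw [SimpleGraph.edgeSet_fromEdgeSet] at he he'
      obtain ⟨⟨v, hv, h1⟩, _⟩ := he
      obtain ⟨⟨w, hw, h2⟩, _⟩ := he'
      rw [← h2] at h1
      have hall : ∀ v w : Fin 4, v ≠ 3 → w ≠ 1 →
          s(v, v + 1) ≠ s(w, (![3, 0, 0, 1] : Fin 4 → Fin 4) w) := by decide
      exact hall v w hv hw h1
    · ext e
      induction' e using Sym2.ind with a b
      rw [SimpleGraph.mem_edgeSet, Set.mem_union, SimpleGraph.mem_edgeSet,
        SimpleGraph.mem_edgeSet, SimpleGraph.fromEdgeSet_adj, SimpleGraph.fromEdgeSet_adj]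
      simp only [SimpleGraph.top_adj, Set.mem_ofPred_eq]
      constructor
      · intro h
        have : (∃ v : Fin 4, v ≠ 3 ∧ s(v, v + 1) = s(a, b)) ∨
            (∃ v : Fin 4, v ≠ 1 ∧ s(v, (![3, 0, 0, 1] : Fin 4 → Fin 4) v) = s(a, b)) := by
          revert h; revert a b; decide
        rcases this with h1 | h1
        · exact Or.inl ⟨h1, h⟩
        · exact Or.inr ⟨h1, h⟩
      · rintro (h | h) <;> exact h.2
  · intro v
    left
    have : (⊤ : SimpleGraph (Fin 4)).neighborSet v = {v}ᶜ := by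
      ext w; simp [eq_comm]
    rw [this, Set.ncard_compl, Set.ncard_singleton]
    simp

open Pool.Agent.Lib.MP_bad31e_co in
/-- Every quartic `G` has exactly four transits; they can be labelled `a, b, c, d` so that `G`
has an (s,t)-triple whenever one of `s, t` is in `{a, b}` and the other in `{c, d}`. -/
theorem result {V : Type*} [Fintype V] (G : SimpleGraph V) (hG : IsQuartic G) :
    ∃ a b c d : V, a ≠ b ∧ a ≠ c ∧ a ≠ d ∧ b ≠ c ∧ b ≠ d ∧ c ≠ d ∧
      (∀ v, IsTransit G v ↔ v = a ∨ v = b ∨ v = c ∨ v = d) ∧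
      (∀ s t, ((s = a ∨ s = b) ∧ (t = c ∨ t = d)) ∨ ((s = c ∨ s = d) ∧ (t = a ∨ t = b)) →
        HasTriple G s t) := by
  classical
  obtain ⟨⟨T₁, T₂, h1, h2, hd, hu⟩, hdeg⟩ := hG
  have hGood := good_of_trees h1 h2 hd hu
  have hdeg' : ∀ v ∈ (Finset.univ : Finset V), dg (edgeFin G) (fun e => e) v = 3 ∨
      dg (edgeFin G) (fun e => e) v = 4 := by
    intro v _
    rw [dg_edgeFin]
    exact hdeg v
  have h4 := four_transits hGood hdeg'
  obtain ⟨a, F1, haF, hF1, hc1⟩ := Finset.card_eq_succ.mp h4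
  obtain ⟨b, c, d, hbc, hbd, hcd, hF2⟩ := Finset.card_eq_three.mp hc1
  subst hF2
  simp only [Finset.mem_insert, Finset.mem_singleton, not_or] at haF
  obtain ⟨hab, hac, had⟩ := haF
  have hmem : ∀ v, (G.neighborSet v).ncard = 3 ↔ v = a ∨ v = b ∨ v = c ∨ v = d := by
    intro v
    have h5 : v ∈ (insert a {b, c, d} : Finset V) ↔ v = a ∨ v = b ∨ v = c ∨ v = d := by
      simp only [Finset.mem_insert, Finset.mem_singleton]
    rw [← h5, hF1, Finset.mem_filter, dg_edgeFin]
    simp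
  have hL : Lst (Finset.univ : Finset V) (edgeFin G) (fun e => e) a b c d := by
    refine ⟨Finset.mem_univ _, Finset.mem_univ _, Finset.mem_univ _, Finset.mem_univ _, ?_⟩
    intro v _
    rw [dg_edgeFin]
    unfold mul4
    rcases hdeg v with h | h
    · rw [h]
      rcases (hmem v).mp h with rfl | rfl | rfl | rfl
      · simp [hab, hac, had]
      · simp [hbc, hbd, Ne.symm hab]
      · simp [hcd, Ne.symm hac, Ne.symm hbc]
      · simp [Ne.symm had, Ne.symm hbd, Ne.symm hcd]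
    · rw [h]
      have h6 : ¬ (v = a ∨ v = b ∨ v = c ∨ v = d) := by
        rw [← hmem v]; omega
      simp only [not_or] at h6
      simp [h6.1, h6.2.1, h6.2.2.1, h6.2.2.2]
  have hcard : 2 ≤ (Finset.univ : Finset V).card := by
    have := Finset.card_le_card (Finset.filter_subset
      (fun v => dg (edgeFin G) (fun e => e) v = 3) (Finset.univ : Finset V))
    rw [h4] at this
    omega
  have hC := main_multigraph hGood hcard hL
  have key : ∀ x y, Feas (Finset.univ : Finset V) (edgeFin G) (fun e => e) x y →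
      HasTriple G x y ∧ HasTriple G y x := fun x y h =>
    ⟨hasTriple_of_feas h, hasTriple_of_feas h.symm⟩
  rcases hC with ⟨⟨m1, m2⟩, ⟨m3, m4⟩⟩ | ⟨⟨m1, m2⟩, ⟨m3, m4⟩⟩ | ⟨⟨m1, m2⟩, ⟨m3, m4⟩⟩
  · -- ab, cd, ac, bd : pairs {a,d}, {b,c}
    refine ⟨a, d, b, c, had, hab, hac, Ne.symm hbd, Ne.symm hcd, hbc, ?_, ?_⟩
    · intro v
      rw [IsTransit, hmem v]
      tauto
    · rintro s t (⟨rfl | rfl, rfl | rfl⟩ | ⟨rfl | rfl, rfl | rfl⟩)
      · exact (key _ _ m1).1
      · exact (key _ _ m3).1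
      · exact (key _ _ m4).2
      · exact (key _ _ m2).2
      · exact (key _ _ m1).2
      · exact (key _ _ m4).1
      · exact (key _ _ m3).2
      · exact (key _ _ m2).1
  · -- ab, cd, ad, bc : pairs {a,c}, {b,d}
    refine ⟨a, c, b, d, hac, hab, had, Ne.symm hbc, hcd, hbd, ?_, ?_⟩
    · intro v
      rw [IsTransit, hmem v]
      tauto
    · rintro s t (⟨rfl | rfl, rfl | rfl⟩ | ⟨rfl | rfl, rfl | rfl⟩)
      · exact (key _ _ m1).1
      · exact (key _ _ m3).1
      · exact (key _ _ m4).2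
      · exact (key _ _ m2).1
      · exact (key _ _ m1).2
      · exact (key _ _ m4).1
      · exact (key _ _ m3).2
      · exact (key _ _ m2).2
  · -- ac, bd, ad, bc : pairs {a,b}, {c,d}
    refine ⟨a, b, c, d, hab, hac, had, hbc, hbd, hcd, ?_, ?_⟩
    · intro v
      rw [IsTransit, hmem v]
    · rintro s t (⟨rfl | rfl, rfl | rfl⟩ | ⟨rfl | rfl, rfl | rfl⟩)
      · exact (key _ _ m1).1
      · exact (key _ _ m3).1
      · exact (key _ _ m4).1
      · exact (key _ _ m2).1
      · exact (key _ _ m1).2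
      · exact (key _ _ m4).2
      · exact (key _ _ m3).2
      · exact (key _ _ m2).2

end Pool.Agent.Results.MP_bad31e_co.TransitPairs
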